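import Pool.Agent.Helper64.FL.StE

/-! Full list for MP_866009_co: a Naji certificate contradicts a solution of the Naji system. -/

set_option autoImplicit false

namespace Pool.Agent.Helper64.FL

open Pool.Agent.Helper64.CT Pool.Agent.Helper64.DT
open Pool.Agent.Helper64.HG (Ovl Model Circ IC HellyCircle ChordModel)

variable {V : Type}

/-- the value of the variable number `c` -/
def crt_g (b : V → V → Bool) (f : ℕ → V) (c : ℕ) : Bool :=
  if c < 1024 then b (f (c / 32)) (f (c % 32)) else true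

/-- the value of the first `k` bits of a sum of variables -/
def crt_ev (g : ℕ → Bool) (m : ℕ) : ℕ → Bool
  | 0 => false
  | k + 1 => xor (crt_ev g m k) (tb m k && g k)

theorem crt_ev_xor (h1 : ST_TBS) (g : ℕ → Bool) (a b : ℕ) (k : ℕ) :
    crt_ev g (Nat.xor a b) k = xor (crt_ev g a k) (crt_ev g b k) := by
  induction k with
  | zero => rfl
  | succ k ih =>
    simp only [crt_ev]
    rw [ih, h1.2.2.2.2.1 a b k]
    generalize crt_ev g a k = p
    generalize crt_ev g b k = q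
    generalize tb a k = r
    generalize tb b k = t
    generalize g k = u
    revert p q r t u
    decide

theorem crt_ev_zero (h1 : ST_TBS) (g : ℕ → Bool) (k : ℕ) : crt_ev g 0 k = false := by
  induction k with
  | zero => rfl
  | succ k ih =>
    simp only [crt_ev]
    rw [ih, h1.2.2.2.2.2.1 k]
    rfl

theorem crt_tb_one (h1 : ST_TBS) (i : ℕ) : tb 1 i = decide (i < 1) := by
  have h := h1.2.2.2.2.2.2.2.2.1 1 i
  exact h

theorem crt_tb_sh (h1 : ST_TBS) (c j : ℕ) : tb (Nat.shiftLeft 1 c) j = decide (j = c) := by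
  rw [h1.2.1 1 c j, crt_tb_one h1]
  by_cases h : j = c
  · subst h
    simp
  · by_cases h' : c ≤ j
    · have : ¬ (j - c < 1) := by omega
      simp [h, this]
    · simp [h, h']

theorem crt_ev_sh (h1 : ST_TBS) (g : ℕ → Bool) (c : ℕ) (k : ℕ) :
    crt_ev g (Nat.shiftLeft 1 c) k = (decide (c < k) && g c) := by
  induction k with
  | zero => simp [crt_ev]
  | succ k ih =>
    simp only [crt_ev]
    rw [ih, crt_tb_sh h1 c k]
    by_cases h : k = c
    · subst h
      simp
    · by_cases h' : c < k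
      · have : c < k + 1 := by omega
        simp [h, h', this]
      · have : ¬ (c < k + 1) := by omega
        simp [h, h', this]

/-- the value of a sum of variables -/
def crt_e (b : V → V → Bool) (f : ℕ → V) (m : ℕ) : Bool := crt_ev (crt_g b f) m 1025

theorem crt_e_xor (h1 : ST_TBS) (b : V → V → Bool) (f : ℕ → V) (m n : ℕ) :
    crt_e b f (Nat.xor m n) = xor (crt_e b f m) (crt_e b f n) :=
  crt_ev_xor h1 _ m n 1025

theorem crt_e_zero (h1 : ST_TBS) (b : V → V → Bool) (f : ℕ → V) : crt_e b f 0 = false :=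
  crt_ev_zero h1 _ 1025

theorem crt_e_one (h1 : ST_TBS) (b : V → V → Bool) (f : ℕ → V) : crt_e b f one = true := by
  unfold crt_e one
  rw [crt_ev_sh h1]
  simp [crt_g]

theorem crt_e_vb (h1 : ST_TBS) (b : V → V → Bool) (f : ℕ → V) (i j : ℕ) (hi : i < 32)
    (hj : j < 32) : crt_e b f (vb i j) = b (f i) (f j) := by
  unfold crt_e vb
  rw [crt_ev_sh h1]
  have e : ox i j = 32 * i + j := rfl
  have h0 : ox i j < 1024 := by rw [e]; omega
  have h2 : ox i j < 1025 := by omega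
  have h3 : ox i j / 32 = i := by rw [e]; omega
  have h4 : ox i j % 32 = j := by rw [e]; omega
  simp only [crt_g, h0, h2, h3, h4, if_true, decide_true, Bool.true_and]

/-- the hypotheses on the solution -/
def crt_N (G : SimpleGraph V) (S : Set V) (b : V → V → Bool) : Prop :=
  (∀ x ∈ S, ∀ y ∈ S, G.Adj x y → b x y ≠ b y x) ∧
  (∀ c ∈ S, ∀ x ∈ S, ∀ y ∈ S, x ∈ Far G c → y ∈ Far G c → G.Adj x y → b c x = b c y) ∧
  (∀ n ∈ S, ∀ v ∈ S, ∀ w ∈ S, G.Adj n v → G.Adj n w → v ≠ w → ¬ G.Adj v w →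
    xor (xor (b v w) (b w v)) (xor (b n v) (b n w)) = true)

theorem crt_path {G : SimpleGraph V} {S : Set V} {b : V → V → Bool} (hN : crt_N G S b) (c : V)
    (hc : c ∈ S) (l : List V) : ∀ a : V, IPt G (a :: l) →
    (∀ y ∈ a :: l, y ∈ S ∧ y ∈ Far G c) → ∀ y ∈ l, b c a = b c y := by
  induction l with
  | nil => intro a _ _ y hy; simp at hy
  | cons d l ih =>
    intro a hp hS y hy
    have had : G.Adj a d := hp.2.1 d rfl
    have hp' : IPt G (d :: l) := hp.2.2.2
    have ha := hS a (by simp)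
    have hd := hS d (by simp)
    have e : b c a = b c d := hN.2.1 c hc a ha.1 d hd.1 ha.2 hd.2 had
    rcases List.mem_cons.mp hy with h | h
    · rw [h]; exact e
    · rw [e]
      exact ih d hp' (fun y hy => hS y (List.mem_cons_of_mem _ hy)) y h

theorem crt_okp {s : Sk} {i j : ℕ} (h : okp s i j = true) : i < s.n ∧ j < s.n ∧ i ≠ j := by
  simp only [okp, Bool.and_eq_true, Bool.not_eq_true'] at h
  refine ⟨?_, ?_, ?_⟩
  · exact Nat.le_of_ble_eq_true h.1.1
  · exact Nat.le_of_ble_eq_true h.1.2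
  · exact Nat.ne_of_beq_eq_false h.2

theorem crt_segq {s : Sk} {x v w : ℕ} (l : List Seg) (h : segq s x v w l = true) :
    ∃ g ∈ l, ((g.u = v ∧ g.w = w) ∨ (g.u = w ∧ g.w = v)) ∧ tb g.cl x = true := by
  induction l with
  | nil => simp [segq] at h
  | cons g l ih =>
    simp only [segq, Bool.or_eq_true, Bool.and_eq_true] at h
    rcases h with ⟨h, h'⟩ | h
    · refine ⟨g, by simp, ?_, h'⟩
      rcases h with ⟨a, b⟩ | ⟨a, b⟩
      · exact Or.inl ⟨Nat.eq_of_beq_eq_true a, Nat.eq_of_beq_eq_true b⟩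
      · exact Or.inr ⟨Nat.eq_of_beq_eq_true a, Nat.eq_of_beq_eq_true b⟩
    · obtain ⟨g', hg', h'⟩ := ih h
      exact ⟨g', List.mem_cons_of_mem _ hg', h'⟩

theorem crt_land (c : ℕ) : Nat.land c 31 < 32 := by
  have h : c &&& 31 ≤ 31 := Nat.and_le_right
  have h' : Nat.land c 31 ≤ 31 := h
  omega

section
variable {G : SimpleGraph V} {s : Sk} {f : ℕ → V} {L : List (Seg × List V)} {z : ℕ} {S : Set V}
  {b : V → V → Bool}

theorem crt_far (hM : Mod G s f L) {x v : ℕ} (hx : x < 32) (hv : v < 32) (hd : db s x v = true)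
    (ho : okp s x v = true) : f v ∈ Far G (f x) := by
  have h := crt_okp ho
  refine ⟨fun e => h.2.2 (hM.inj v x h.2.1 h.1 e).symm, (hM.nad x v hx hv hd).2.2 h.2.2⟩

theorem crt_k0 (h1 : ST_TBS) (hM : Mod G s f L) (hN : crt_N G S b)
    (hS : ∀ i, i < s.n → i ≠ z → f i ∈ S) {v w : ℕ} (hv : v < 32) (hw : w < 32)
    (zv : v ≠ z) (zw : w ≠ z) (he : eb s v w = true) (ho : okp s v w = true) :
    crt_e b f (Nat.xor (Nat.xor (vb v w) (vb w v)) one) = false := by
  have h := crt_okp ho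
  rw [crt_e_xor h1, crt_e_xor h1, crt_e_vb h1 b f v w hv hw, crt_e_vb h1 b f w v hw hv,
    crt_e_one h1]
  have h2 := hN.1 (f v) (hS v h.1 zv) (f w) (hS w h.2.1 zw) ((hM.adj v w hv hw he).2.2 h.2.2)
  revert h2
  generalize b (f v) (f w) = p
  generalize b (f w) (f v) = q
  revert p q
  decide

theorem crt_k1 (h1 : ST_TBS) (hM : Mod G s f L) (hN : crt_N G S b)
    (hS : ∀ i, i < s.n → i ≠ z → f i ∈ S) {x v w : ℕ} (hx : x < 32) (hv : v < 32) (hw : w < 32)
    (zx : x ≠ z) (zv : v ≠ z) (zw : w ≠ z) (he : eb s v w = true) (ho : okp s v w = true)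
    (dv : db s x v = true) (dw : db s x w = true) (ov : okp s x v = true)
    (ow : okp s x w = true) :
    crt_e b f (Nat.xor (vb x v) (vb x w)) = false := by
  have h := crt_okp ho
  have h' := crt_okp ov
  rw [crt_e_xor h1, crt_e_vb h1 b f x v hx hv, crt_e_vb h1 b f x w hx hw]
  have h2 := hN.2.1 (f x) (hS x h'.1 zx) (f v) (hS v h.1 zv) (f w) (hS w h.2.1 zw)
    (crt_far hM hx hv dv ov) (crt_far hM hx hw dw ow) ((hM.adj v w hv hw he).2.2 h.2.2)
  rw [h2]
  exact Bool.xor_self _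

theorem crt_k2 (h1 : ST_TBS) (hM : Mod G s f L) (hN : crt_N G S b)
    (hS : ∀ i, i < s.n → i ≠ z → f i ∈ S) {x v w : ℕ} (hx : x < 32) (hv : v < 32) (hw : w < 32)
    (zx : x ≠ z) (zv : v ≠ z) (zw : w ≠ z) (hd : db s v w = true) (ho : okp s v w = true)
    (ev : eb s x v = true) (ew : eb s x w = true) (ov : okp s x v = true)
    (ow : okp s x w = true) :
    crt_e b f (Nat.xor (Nat.xor (Nat.xor (vb v w) (vb w v)) (Nat.xor (vb x v) (vb x w))) one)
      = false := by
  have h := crt_okp ho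
  have h' := crt_okp ov
  have h'' := crt_okp ow
  rw [crt_e_xor h1, crt_e_xor h1, crt_e_xor h1, crt_e_xor h1, crt_e_vb h1 b f x v hx hv,
    crt_e_vb h1 b f x w hx hw, crt_e_vb h1 b f v w hv hw, crt_e_vb h1 b f w v hw hv,
    crt_e_one h1]
  have h2 := hN.2.2 (f x) (hS x h'.1 zx) (f v) (hS v h.1 zv) (f w) (hS w h.2.1 zw)
    ((hM.adj x v hx hv ev).2.2 h'.2.2) ((hM.adj x w hx hw ew).2.2 h''.2.2)
    (fun e => h.2.2 (hM.inj v w h.1 h.2.1 e)) ((hM.nad v w hv hw hd).2.2 h.2.2)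
  rw [h2]
  rfl

theorem crt_k3 (h1 : ST_TBS) (hM : Mod G s f L) (hN : crt_N G S b)
    (hS : ∀ i, i < s.n → i ≠ z → f i ∈ S) (hP : ∀ p ∈ L, ∀ x ∈ p.2, x ∈ S) {x v w : ℕ}
    (hx : x < 32) (hv : v < 32) (hw : w < 32)
    (zx : x ≠ z) (zv : v ≠ z) (zw : w ≠ z) (hq : segq s x v w s.sg = true)
    (dv : db s x v = true) (dw : db s x w = true) (ov : okp s x v = true)
    (ow : okp s x w = true) :
    crt_e b f (Nat.xor (vb x v) (vb x w)) = false := by
  have h' := crt_okp ov
  have h'' := crt_okp ow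
  rw [crt_e_xor h1, crt_e_vb h1 b f x v hx hv, crt_e_vb h1 b f x w hx hw]
  obtain ⟨g, hg, huw, hcl⟩ := crt_segq s.sg hq
  rw [← hM.map] at hg
  obtain ⟨p, hp, rfl⟩ := List.mem_map.mp hg
  have hpth := hM.pth p hp
  have hcln := hM.cln p hp x hcl
  have hfx : f x ∈ S := hS x h'.1 zx
  have fv := crt_far hM hx hv dv ov
  have fw := crt_far hM hx hw dw ow
  have sv := hS v h'.2.1 zv
  have sw := hS w h''.2.1 zw
  have hu : f p.1.u ∈ S ∧ f p.1.u ∈ Far G (f x) := by
    rcases huw with ⟨e, _⟩ | ⟨e, _⟩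
    · rw [e]; exact ⟨sv, fv⟩
    · rw [e]; exact ⟨sw, fw⟩
  have hw' : f p.1.w ∈ S ∧ f p.1.w ∈ Far G (f x) := by
    rcases huw with ⟨_, e⟩ | ⟨_, e⟩
    · rw [e]; exact ⟨sw, fw⟩
    · rw [e]; exact ⟨sv, fv⟩
  have key := crt_path hN (f x) hfx (p.2 ++ [f p.1.w]) (f p.1.u) hpth (by
    intro y hy
    rcases List.mem_cons.mp hy with e | e
    · rw [e]; exact hu
    · rcases List.mem_append.mp e with e | e
      · exact ⟨hP p hp y e, hM.dis p hp y e x h'.1, hcln.2.2.2 y e⟩
      · rw [List.mem_singleton.mp e]; exact hw') (f p.1.w) (by simp)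
  rcases huw with ⟨e1, e2⟩ | ⟨e1, e2⟩
  · rw [e1, e2] at key
    rw [key]
    exact Bool.xor_self _
  · rw [e1, e2] at key
    rw [key]
    exact Bool.xor_self _

theorem crt_cond (h1 : ST_TBS) (c : Bool) (m : ℕ) (h : c = true → crt_e b f m = false) :
    crt_e b f (bif c then m else 0) = false := by
  cases c with
  | false => exact crt_e_zero h1 b f
  | true => exact h rfl

theorem crt_cond' (h1 : ST_TBS) (c : Bool) (m : ℕ) (h : c = false → crt_e b f m = false) :
    crt_e b f (bif c then 0 else m) = false := by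
  cases c with
  | true => exact crt_e_zero h1 b f
  | false => exact h rfl

theorem crt_eqv (h1 : ST_TBS) (hM : Mod G s f L) (hN : crt_N G S b)
    (hS : ∀ i, i < s.n → i ≠ z → f i ∈ S) (c : ℕ) : crt_e b f (eqv s z c) = false := by
  have hx := crt_land (Nat.shiftRight c 2)
  have hv := crt_land (Nat.shiftRight c 7)
  have hw := crt_land (Nat.shiftRight c 12)
  unfold eqv
  simp only []
  revert hx hv hw
  generalize Nat.land (Nat.shiftRight c 2) 31 = x
  generalize Nat.land (Nat.shiftRight c 7) 31 = v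
  generalize Nat.land (Nat.shiftRight c 12) 31 = w
  intro hx hv hw
  apply crt_cond' h1
  intro hz
  simp only [Bool.or_eq_false_iff] at hz
  have zx : x ≠ z := Nat.ne_of_beq_eq_false hz.1.1
  have zv : v ≠ z := Nat.ne_of_beq_eq_false hz.1.2
  have zw : w ≠ z := Nat.ne_of_beq_eq_false hz.2
  split
  · apply crt_cond h1
    intro h
    simp only [Bool.and_eq_true] at h
    exact crt_k0 h1 hM hN hS hv hw zv zw h.1 h.2
  · apply crt_cond h1
    intro h
    simp only [Bool.and_eq_true] at h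
    obtain ⟨⟨⟨⟨⟨a1, a2⟩, a3⟩, a4⟩, a5⟩, a6⟩ := h
    exact crt_k1 h1 hM hN hS hx hv hw zx zv zw a1 a2 a3 a4 a5 a6
  · apply crt_cond h1
    intro h
    simp only [Bool.and_eq_true] at h
    obtain ⟨⟨⟨⟨⟨a1, a2⟩, a3⟩, a4⟩, a5⟩, a6⟩ := h
    exact crt_k2 h1 hM hN hS hx hv hw zx zv zw a1 a2 a3 a4 a5 a6
  · exact crt_e_zero h1 b f

theorem crt_eqs (h1 : ST_TBS) (hM : Mod G s f L) (hN : crt_N G S b)
    (hS : ∀ i, i < s.n → i ≠ z → f i ∈ S) (hP : ∀ p ∈ L, ∀ x ∈ p.2, x ∈ S) (c : ℕ) :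
    crt_e b f (eqs s z c) = false := by
  have hx := crt_land (Nat.shiftRight c 2)
  have hv := crt_land (Nat.shiftRight c 7)
  have hw := crt_land (Nat.shiftRight c 12)
  unfold eqs
  simp only []
  revert hx hv hw
  generalize Nat.land (Nat.shiftRight c 2) 31 = x
  generalize Nat.land (Nat.shiftRight c 7) 31 = v
  generalize Nat.land (Nat.shiftRight c 12) 31 = w
  intro hx hv hw
  apply crt_cond' h1
  intro hz
  simp only [Bool.or_eq_false_iff] at hz
  have zx : x ≠ z := Nat.ne_of_beq_eq_false hz.1.1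
  have zv : v ≠ z := Nat.ne_of_beq_eq_false hz.1.2
  have zw : w ≠ z := Nat.ne_of_beq_eq_false hz.2
  apply crt_cond h1
  intro h
  simp only [Bool.and_eq_true] at h
  obtain ⟨⟨⟨⟨a1, a2⟩, a3⟩, a4⟩, a5⟩ := h
  exact crt_k3 h1 hM hN hS hP hx hv hw zx zv zw a1 a2 a3 a4 a5

theorem crt_eqq (h1 : ST_TBS) (hM : Mod G s f L) (hN : crt_N G S b)
    (hS : ∀ i, i < s.n → i ≠ z → f i ∈ S) (hP : ∀ p ∈ L, ∀ x ∈ p.2, x ∈ S) (c : ℕ) :
    crt_e b f (eqq s z c) = false := by
  unfold eqq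
  cases Nat.beq (Nat.land c 3) 3 with
  | true => exact crt_eqs h1 hM hN hS hP c
  | false => exact crt_eqv h1 hM hN hS c

theorem crt_main (h1 : ST_TBS) (hM : Mod G s f L) (hN : crt_N G S b)
    (hS : ∀ i, i < s.n → i ≠ z → f i ∈ S) (hP : ∀ p ∈ L, ∀ x ∈ p.2, x ∈ S) (k : ℕ) :
    ∀ m a, crt_e b f a = false → crt s z k m a = false := by
  induction k with
  | zero =>
    intro m a ha
    by_contra hne
    have h : Nat.beq a one = true := by
      have h' : crt s z 0 m a = Nat.beq a one := rfl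
      rw [← h']
      exact (Bool.not_eq_false _).mp hne
    have h' := Nat.eq_of_beq_eq_true h
    rw [h', crt_e_one h1] at ha
    exact Bool.noConfusion ha
  | succ k ih =>
    intro m a ha
    have h' : crt s z (k + 1) m a = crt s z k (Nat.shiftRight m 17)
      (Nat.xor a (eqq s z (Nat.land m 131071))) := rfl
    rw [h']
    apply ih
    rw [crt_e_xor h1, ha, crt_eqq h1 hM hN hS hP]
    rfl

end

theorem st_CRT (h1 : ST_TBS) (_ : ST_PXI) : ST_CRT := by
  intro V G s f L z k m S hM hN hS hP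
  obtain ⟨b, hb⟩ := hN
  exact crt_main h1 hM hb hS hP k m 0 (crt_e_zero h1 b f)

end Pool.Agent.Helper64.FL
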