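import Pool.Agent.Helper64.FL.StG

/-! Full list for MP_866009_co: a vertex complete to `A_2` and to `A_3`. -/

set_option autoImplicit false

namespace Pool.Agent.Helper64.FL

open Pool.Agent.Helper64.CT Pool.Agent.Helper64.DT

variable {V : Type}

theorem iib_symm (hCNB : ST_CNB) (G : SimpleGraph V) {x a b : V} (h : Comp G x a b) :
    Comp G x b a := by
  obtain ⟨h1, -, -, -, h5, -, -⟩ := hCNB V G
  exact (h5 _ _ _).2 (h1 _ _ _ ((h5 _ _ _).1 h)).2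

theorem iib_trans (hCNB : ST_CNB) (G : SimpleGraph V) {x a b c : V} (h : Comp G x a b)
    (h' : Comp G x b c) : Comp G x a c := by
  obtain ⟨-, h2, -, -, h5, -, -⟩ := hCNB V G
  exact (h5 _ _ _).2 (h2 _ _ _ _ ((h5 _ _ _).1 h) ((h5 _ _ _).1 h'))

theorem iib_cn (hCNB : ST_CNB) (G : SimpleGraph V) {x y a b : V} (ha : Comp G x y a)
    (hb : Comp G x y b) : Cn G (KC G x y) a b := by
  have hs : KC G x a ⊆ KC G x y := fun u hu => iib_trans hCNB G ha hu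
  obtain ⟨-, -, h3, -, -, h6, -⟩ := hCNB V G
  exact h3 _ _ _ _ hs (h6 _ _ _ (iib_trans hCNB G (iib_symm hCNB G ha) hb))

/-- the pair `p`, `p'` is split by the component -/
theorem iib_spl (hNRX : ST_NRX) (G : SimpleGraph V) {x y p p' : V} (hp : p ∈ Att G x y)
    (hp' : p' ∈ Att G x y)
    (h : ∃ u ∈ KC G x y, (G.Adj u p ∧ ¬ G.Adj u p') ∨ (G.Adj u p' ∧ ¬ G.Adj u p)) :
    Spl3 G (KC G x y) p p' := by
  by_cases h1 : ∃ u ∈ KC G x y, G.Adj u p ∧ ¬ G.Adj u p'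
  · obtain ⟨u, hu, h2, h3⟩ := h1
    obtain ⟨L, r, h4⟩ := hNRX V G x y u p' hu hp'
    exact ⟨u, r, L, Or.inl ⟨h2, h3, h4⟩⟩
  · obtain ⟨u, hu, h2⟩ := h
    rcases h2 with h2 | h2
    · exact absurd ⟨u, hu, h2⟩ h1
    · obtain ⟨L, r, h4⟩ := hNRX V G x y u p hu hp
      refine ⟨u, r, L, Or.inr ⟨h2.1, h2.2, h4, ?_⟩⟩
      by_contra h5
      exact h1 ⟨r, h4.rK, h4.rb, h5⟩

/-- the pair is split by the first and by the third component only -/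
theorem iib_one (hCNB : ST_CNB) (hNRX : ST_NRX) (hPKX : ST_PKX) (hONF : ST_ONF) (hQK2 : ST_QK2)
    (G : SimpleGraph V) (hG : NoP G preBs) {x y1 y2 y3 t p p' w : V}
    (n12 : ¬ Comp G x y1 y2) (n13 : ¬ Comp G x y1 y3) (n23 : ¬ Comp G x y2 y3)
    (hc : ∃ u, Comp G x y2 u ∧ Mixed G u (Att G x y3)) (ht : Comp G x y1 t)
    (t2 : ∀ n ∈ Att G x y2, G.Adj t n) (t3 : ∀ n ∈ Att G x y3, G.Adj t n)
    (p2 : p ∈ Att G x y2) (p'2 : p' ∈ Att G x y2) (p3 : p ∈ Att G x y3) (p'3 : p' ∈ Att G x y3)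
    (hw : Comp G x y1 w) (wp : G.Adj w p) (wp' : ¬ G.Adj w p')
    (h3 : ∃ u ∈ KC G x y3, (G.Adj u p ∧ ¬ G.Adj u p') ∨ (G.Adj u p' ∧ ¬ G.Adj u p))
    (h2 : ∀ u ∈ KC G x y2, G.Adj u p ↔ G.Adj u p') : False := by
  -- the choice of `s`
  have key : ∃ s ∈ Att G x y3, s ≠ p ∧ s ≠ p' ∧ ∃ c ∈ KC G x y2, G.Adj c p ∧ G.Adj c p' ∧
      (¬ G.Adj c s ∨ (G.Adj c s ∧ ∃ Lc c', PtK G (KC G x y2) c Lc c' ∧ G.Adj c' s ∧
        ¬ G.Adj c' p ∧ ¬ G.Adj c' p')) := by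
    by_cases h4 : ∃ c ∈ KC G x y2, G.Adj c p ∧ ∃ s ∈ Att G x y3, ¬ G.Adj c s
    · obtain ⟨c, hcK, hcp, s, hs, hcs⟩ := h4
      have hcp' : G.Adj c p' := (h2 c hcK).1 hcp
      refine ⟨s, hs, ?_, ?_, c, hcK, hcp, hcp', Or.inl hcs⟩
      · rintro rfl
        exact hcs hcp
      · rintro rfl
        exact hcs hcp'
    · obtain ⟨c', hc', ⟨s, hs, hcs⟩, s', hs', hcs'⟩ := hc
      obtain ⟨-, c, hcK, hpc⟩ := p2
      have hcp : G.Adj c p := hpc.symm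
      have hcp' : G.Adj c p' := (h2 c hcK).1 hcp
      have hcs1 : G.Adj c s := by
        by_contra h5
        exact h4 ⟨c, hcK, hcp, s, hs, h5⟩
      have h6 : ¬ G.Adj c' p := fun h7 => h4 ⟨c', hc', h7, s', hs', hcs'⟩
      have h7 : ¬ G.Adj c' p' := fun h8 => h6 ((h2 c' hc').2 h8)
      obtain ⟨Lc, hLc⟩ := hPKX V G x y2 c c' hcK hc'
      refine ⟨s, hs, ?_, ?_, c, hcK, hcp, hcp', Or.inr ⟨hcs1, Lc, c', hLc, hcs, h6, h7⟩⟩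
      · rintro rfl
        exact h6 hcs
      · rintro rfl
        exact h7 hcs
  obtain ⟨s, hs, sp, sp', hcc⟩ := key
  obtain ⟨L, hL⟩ := hPKX V G x y1 t w ht hw
  -- the path in the third component
  have path : ∀ a b l : V, ((a = p ∧ b = p') ∨ (a = p' ∧ b = p)) → b ∈ Att G x y3 →
      l ∈ KC G x y3 → G.Adj l a → ¬ G.Adj l b →
      (∃ a b, ((a = p ∧ b = p') ∨ (a = p' ∧ b = p)) ∧ ∃ l l1 f l2 r, G.Adj l a ∧ ¬ G.Adj l b ∧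
        G.Adj r b ∧ (∀ u ∈ l1, ¬ G.Adj u b) ∧ (∀ u ∈ l2, ¬ G.Adj u b) ∧ (f ≠ r → ¬ G.Adj f b) ∧
        (OnP G (KC G x y3) (fun u => G.Adj u s) l l1 f l2 r ∨
          ∃ y l3 y', OffP G (KC G x y3) (fun u => G.Adj u s) l l1 f l2 r y l3 y')) := by
    intro a b l hab hb hl hla hlb
    obtain ⟨M, r, hM⟩ := hNRX V G x y3 l b hl hb
    obtain ⟨-, y0, hy0, hsy⟩ := hs
    obtain ⟨l1, f, l2, h11, h12, hf, hh⟩ := hONF V G (KC G x y3) (fun u => G.Adj u s) l r M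
      ⟨hM.lK, hM.rK, hM.LK, hM.pth⟩ ⟨y0, hsy.symm, iib_cn hCNB G hy0 hl⟩
    refine ⟨a, b, hab, l, l1, f, l2, r, hla, hlb, hM.rb, fun u hu => hM.Lb u (h11 u hu),
      fun u hu => hM.Lb u (h12 u hu), ?_, hh⟩
    intro hfr
    rcases hf with rfl | rfl | hf
    · exact hlb
    · exact absurd rfl hfr
    · exact hM.Lb f hf
  have hfin : (∃ a b, ((a = p ∧ b = p') ∨ (a = p' ∧ b = p)) ∧ ∃ l l1 f l2 r, G.Adj l a ∧
      ¬ G.Adj l b ∧ G.Adj r b ∧ (∀ u ∈ l1, ¬ G.Adj u b) ∧ (∀ u ∈ l2, ¬ G.Adj u b) ∧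
      (f ≠ r → ¬ G.Adj f b) ∧ (OnP G (KC G x y3) (fun u => G.Adj u s) l l1 f l2 r ∨
        ∃ y l3 y', OffP G (KC G x y3) (fun u => G.Adj u s) l l1 f l2 r y l3 y')) := by
    obtain ⟨u, hu, h5 | h5⟩ := h3
    · exact path p p' u (Or.inl ⟨rfl, rfl⟩) p'3 hu h5.1 h5.2
    · exact path p' p u (Or.inr ⟨rfl, rfl⟩) p3 hu h5.1 h5.2
  exact hQK2 V G hG x y1 y2 y3 p p' s t L w n12 n13 n23 p2.1 p'2.1 hs.1 hL (t2 p p2) (t2 p' p'2)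
    (t3 s hs) wp wp' hcc sp sp' hfin

theorem st_IIB (hCNB : ST_CNB) (hLKX : ST_LKX) (hNRX : ST_NRX) (hPKX : ST_PKX) (hONF : ST_ONF)
    (hEQ2 : ST_EQ2) (hQK1 : ST_QK1) (hQK2 : ST_QK2) (hQBB : ST_QBB) (hQBC : ST_QBC) : ST_IIB := by
  intro V G hG x y1 y2 y3 t n c12 c13 c23 ht t2 t3 hn2 hn3
  have n12 := c12.1
  have n13 := c13.1
  have n23 := c23.1
  have n32 : ¬ Comp G x y3 y2 := fun h => n23 (iib_symm hCNB G h)
  by_cases h1 : ∃ u ∈ Att G x y2 ∩ Att G x y3, ∃ v ∈ Att G x y2 ∩ Att G x y3,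
      ∃ w ∈ KC G x y1, G.Adj w u ∧ ¬ G.Adj w v
  · by_cases h2 : ∃ u ∈ Att G x y2 ∩ Att G x y3, ∃ v ∈ Att G x y2 ∩ Att G x y3,
        ∃ w ∈ KC G x y2 ∪ KC G x y3, G.Adj w u ∧ ¬ G.Adj w v
    · -- case (1)
      obtain ⟨p, hp, p', hp', ⟨M, ⟨w, hw, rfl⟩, wp, wp'⟩, M', ⟨v, hv, rfl⟩, hvp⟩ := hEQ2 V
        (Att G x y2 ∩ Att G x y3) {M | ∃ w ∈ KC G x y1, M = {u | G.Adj w u}}
        {M | ∃ w ∈ KC G x y2 ∪ KC G x y3, M = {u | G.Adj w u}}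
        (by
          obtain ⟨u, hu, v, hv, w, hw, h3, h4⟩ := h1
          exact ⟨u, hu, v, hv, _, ⟨w, hw, rfl⟩, h3, h4⟩)
        (by
          obtain ⟨u, hu, v, hv, w, hw, h3, h4⟩ := h2
          exact ⟨u, hu, v, hv, _, ⟨w, hw, rfl⟩, h3, h4⟩)
      have wp1 : G.Adj w p := wp
      have wp2 : ¬ G.Adj w p' := wp'
      have hvp1 : (G.Adj v p ∧ ¬ G.Adj v p') ∨ (G.Adj v p' ∧ ¬ G.Adj v p) := hvp
      by_cases s2 : ∃ u ∈ KC G x y2, (G.Adj u p ∧ ¬ G.Adj u p') ∨ (G.Adj u p' ∧ ¬ G.Adj u p)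
      · by_cases s3 : ∃ u ∈ KC G x y3, (G.Adj u p ∧ ¬ G.Adj u p') ∨ (G.Adj u p' ∧ ¬ G.Adj u p)
        · obtain ⟨L, hL⟩ := hPKX V G x y1 t w ht hw
          exact hQK1 V G hG x y1 y2 y3 p p' t L w n12 n13 n23 hp.1.1 hp'.1.1 hL (t2 p hp.1)
            (t2 p' hp'.1) wp1 wp2 (iib_spl hNRX G hp.1 hp'.1 s2) (iib_spl hNRX G hp.2 hp'.2 s3)
        · refine iib_one hCNB hNRX hPKX hONF hQK2 G hG (y2 := y3) (y3 := y2) n13 n12 n32 c23.2.2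
            ht t3 t2 hp.2 hp'.2 hp.1 hp'.1 hw wp1 wp2 s2 ?_
          intro u hu
          constructor
          · intro h5
            by_contra h6
            exact s3 ⟨u, hu, Or.inl ⟨h5, h6⟩⟩
          · intro h5
            by_contra h6
            exact s3 ⟨u, hu, Or.inr ⟨h5, h6⟩⟩
      · have s3 : ∃ u ∈ KC G x y3, (G.Adj u p ∧ ¬ G.Adj u p') ∨ (G.Adj u p' ∧ ¬ G.Adj u p) := by
          rcases hv with hv | hv
          · exact absurd ⟨v, hv, hvp1⟩ s2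
          · exact ⟨v, hv, hvp1⟩
        refine iib_one hCNB hNRX hPKX hONF hQK2 G hG n12 n13 n23 c23.2.1 ht t2 t3 hp.1 hp'.1 hp.2
          hp'.2 hw wp1 wp2 s3 ?_
        intro u hu
        constructor
        · intro h5
          by_contra h6
          exact s2 ⟨u, hu, Or.inl ⟨h5, h6⟩⟩
        · intro h5
          by_contra h6
          exact s2 ⟨u, hu, Or.inr ⟨h5, h6⟩⟩
    · -- case (2)
      obtain ⟨b, hb, b', hb', w, hw, wb, wb'⟩ := h1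
      have hns : ∀ u v w, u ∈ Att G x y2 ∩ Att G x y3 → v ∈ Att G x y2 ∩ Att G x y3 →
          w ∈ KC G x y2 ∪ KC G x y3 → G.Adj w u → G.Adj w v := by
        intro u v w hu hv hw h3
        by_contra h4
        exact h2 ⟨u, hu, v, hv, w, hw, h3, h4⟩
      have ha' : ∃ a' ∈ Att G x y3, a' ∉ Att G x y2 := by
        by_contra h3
        push Not at h3
        obtain ⟨u, hu, ⟨m, hm, h4⟩, m', hm', h5⟩ := c23.2.1
        exact h5 (hns m m' u ⟨h3 m hm, hm⟩ ⟨h3 m' hm', hm'⟩ (Or.inl hu) h4)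
      have ha : ∃ a ∈ Att G x y2, a ∉ Att G x y3 := by
        by_contra h3
        push Not at h3
        obtain ⟨u, hu, ⟨m, hm, h4⟩, m', hm', h5⟩ := c23.2.2
        exact h5 (hns m m' u ⟨hm, h3 m hm⟩ ⟨hm', h3 m' hm'⟩ (Or.inr hu) h4)
      obtain ⟨a, ha2, ha3⟩ := ha
      obtain ⟨a', ha'3, ha'2⟩ := ha'
      obtain ⟨L, hL⟩ := hPKX V G x y1 t w ht hw
      obtain ⟨l, Ll, l', hl⟩ := hLKX V G x y2 a b ha2 hb.1
      obtain ⟨r, R, r', hr⟩ := hLKX V G x y3 a' b ha'3 hb.2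
      exact hQBC V G hG x y1 y2 y3 a b b' a' t L w n12 n13 n23 ha2.1 hb.1.1 hb'.1.1 ha'3.1 ha'2
        ha3 hL (t2 a ha2) (t2 b hb.1) (t2 b' hb'.1) (t3 a' ha'3) wb wb'
        (fun u hu => ⟨hns b b' u hb hb' (Or.inl hu), hns b' b u hb' hb (Or.inl hu)⟩)
        (fun u hu => ⟨hns b b' u hb hb' (Or.inr hu), hns b' b u hb' hb (Or.inr hu)⟩)
        l Ll l' r R r' hl hr
  · -- case (3)
    have hns : ∀ u v w, u ∈ Att G x y2 ∩ Att G x y3 → v ∈ Att G x y2 ∩ Att G x y3 →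
        w ∈ KC G x y1 → G.Adj w u → G.Adj w v := by
      intro u v w hu hv hw h3
      by_contra h4
      exact h1 ⟨u, hu, v, hv, w, hw, h3, h4⟩
    have ha : ∃ a ∈ Att G x y2, a ∉ Att G x y3 ∧ ∃ w ∈ KC G x y1,
        (G.Adj w a ∧ ¬ G.Adj w n) ∨ (G.Adj w n ∧ ¬ G.Adj w a) := by
      obtain ⟨w, hw, ⟨m, hm, h4⟩, m', hm', h5⟩ := c12.2.1
      by_cases h6 : G.Adj w n
      · exact ⟨m', hm', fun h7 => h5 (hns n m' w ⟨hn2, hn3⟩ ⟨hm', h7⟩ hw h6), w, hw,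
          Or.inr ⟨h6, h5⟩⟩
      · exact ⟨m, hm, fun h7 => h6 (hns m n w ⟨hm, h7⟩ ⟨hn2, hn3⟩ hw h4), w, hw,
          Or.inl ⟨h4, h6⟩⟩
    have ha' : ∃ a' ∈ Att G x y3, a' ∉ Att G x y2 ∧ ∃ w ∈ KC G x y1,
        (G.Adj w a' ∧ ¬ G.Adj w n) ∨ (G.Adj w n ∧ ¬ G.Adj w a') := by
      obtain ⟨w, hw, ⟨m, hm, h4⟩, m', hm', h5⟩ := c13.2.1
      by_cases h6 : G.Adj w n
      · exact ⟨m', hm', fun h7 => h5 (hns n m' w ⟨hn2, hn3⟩ ⟨h7, hm'⟩ hw h6), w, hw,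
          Or.inr ⟨h6, h5⟩⟩
      · exact ⟨m, hm, fun h7 => h6 (hns m n w ⟨h7, hm⟩ ⟨hn2, hn3⟩ hw h4), w, hw,
          Or.inl ⟨h4, h6⟩⟩
    obtain ⟨a, ha2, ha3, w, hw, hwa⟩ := ha
    obtain ⟨a', ha'3, ha'2, y, hy, hya⟩ := ha'
    obtain ⟨L, hL⟩ := hPKX V G x y1 t w ht hw
    obtain ⟨l1, f, l2, -, -, -, hh⟩ := hONF V G (KC G x y1) (fun u => u = y) t w L hL
      ⟨y, rfl, iib_cn hCNB G hy ht⟩
    obtain ⟨l, Ll, l', hl⟩ := hLKX V G x y2 a n ha2 hn2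
    obtain ⟨r, R, r', hr⟩ := hLKX V G x y3 a' n ha'3 hn3
    refine hQBB V G hG x y1 y2 y3 a n a' t w y n12 n13 n23 ha2.1 hn2.1 ha'3.1 ?_ ?_ ?_ ha'2 ha3
      (t2 a ha2) (t2 n hn2) (t3 a' ha'3) hwa hya l1 f l2 hh l Ll l' r R r' hl hr
    · rintro rfl
      exact ha'2 hn2
    · rintro rfl
      exact ha'2 ha2
    · rintro rfl
      exact ha3 hn3

end Pool.Agent.Helper64.FL
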