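import Pool.Agent.Helper64.FL.StC

/-! Full list for MP_866009_co: parity along walks of conflicts. -/

set_option autoImplicit false

namespace Pool.Agent.Helper64.FL

open Pool.Agent.Helper64.CT Pool.Agent.Helper64.DT

variable {V : Type}

theorem vwx_xf : ∀ a b : Bool, xor a b = false → a = b := by decide

/-- conflicting components have a common attachment -/
theorem vwx_n {G : SimpleGraph V} {h y z : V} (hc : Conf G h y z) :
    ∃ n, n ∈ Att G h y ∧ n ∈ Att G h z := by
  obtain ⟨_, ⟨u, hu, ⟨n, hn, hadj⟩, _⟩, _⟩ := hc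
  exact ⟨n, ⟨hn.1, u, hu, hadj.symm⟩, hn⟩

theorem vwx_sub {G : SimpleGraph V} {x y z : V} (h : Le G x y z) :
    ∀ m ∈ Att G x y, m ∈ Att G x z := by
  obtain ⟨⟨n, hn1, hn2⟩, hm⟩ := h
  obtain ⟨_, w, hw, hnw⟩ := hn2
  intro m hmm
  have h1 : G.Adj w m := by
    by_contra h2
    exact hm w hw ⟨⟨n, hn1, hnw.symm⟩, m, hmm, h2⟩
  exact ⟨hmm.1, w, hw, h1.symm⟩

/-- without conflict one of the components is below the other one -/
theorem vwx_le {G : SimpleGraph V} {x y z n : V} (h1 : ¬ Conf G x y z) (h2 : ¬ Comp G x y z)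
    (hn : n ∈ Att G x y) (hn' : n ∈ Att G x z) : Le G x y z ∨ Le G x z y := by
  by_cases h3 : ∃ u, Comp G x y u ∧ Mixed G u (Att G x z)
  · left
    refine ⟨⟨n, hn, hn'⟩, ?_⟩
    intro u hu hm
    exact h1 ⟨h2, h3, u, hu, hm⟩
  · right
    refine ⟨⟨n, hn', hn⟩, ?_⟩
    intro u hu hm
    exact h3 ⟨u, hu, hm⟩

/-- rays of `h` at an inner component have the same sign -/
theorem vwx_sg {G : SimpleGraph V} {Q : Set V} {σ : V → Bool} (hRAY : ST_RAY)
    (hE : EnvC G Q σ) {h v m m' : V} (hQ : h ∈ Q) (hm : m ∈ Att G h v) (hm' : m' ∈ Att G h v)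
    (mQ : m ∉ Q) (mQ' : m' ∉ Q) (hin : ∀ q ∈ Q, q ∉ Att G h v) : σ m = σ m' := by
  obtain ⟨_, _, R3, _, _, R6⟩ := hRAY V G Q hE.red.df hE.mx
  obtain ⟨q, hq, hqh, _⟩ := hE.big h h
  obtain ⟨hh, u, hu, hmu⟩ := hm
  obtain ⟨hh', u', hu', hmu'⟩ := hm'
  have f1 : m ∈ Far G q := R6 h hQ m hh mQ q hq hqh
  have f2 : m' ∈ Far G q := R6 h hQ m' hh' mQ' q hq hqh
  have hadj : G.Adj h q := hE.mx.1 h hQ q hq (fun e => hqh e.symm)
  have hfar : ∀ w, Comp G h v w → w ∈ Far G q := by
    intro w hw
    refine ⟨?_, ?_⟩
    · intro e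
      exact R3 h hQ w hw.right (e ▸ hq)
    · intro ha
      exact hin q hq ⟨hadj, w, hw, ha⟩
  have hcc : Comp G q u u' := by
    refine (hu.symm.trans hu').ind (fun w => Comp G q u w) (Comp.refl (hfar u hu)) ?_
    intro z w hz hcz hw hzw
    exact hcz.step (hfar w (hu.trans (hz.step hw hzw))) hzw
  have h1 : Comp G q m u := Comp.adj f1 (hfar u hu) hmu
  have h2 : Comp G q u' m' := (Comp.adj f2 (hfar u' hu') hmu').symm
  exact (hE.sg h m m' q ⟨hQ, hh, mQ⟩ ⟨hQ, hh', mQ'⟩ hq hqh).1 ((h1.trans hcc).trans h2)

theorem st_VWX (hPHI : ST_PHI) (hLM3 : ST_LM3) (hFRY : ST_FRY) (hCWX : ST_CWX) (hRAY : ST_RAY)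
    (hPRP : ST_PRP) : ST_VWX := by
  intro V G Q σ n θ f hE hL hS hno h x x' u u' r E hQ hx hx' hu hu'
  have hDF := hE.red.df
  obtain ⟨R1, R2, R3, R4, R5, R6⟩ := hRAY V G Q hDF hE.mx
  have hphi : ∀ {y y' w w' : V}, h ≠ y → h ≠ y' → RayQ G Q y w → RayQ G Q y' w' →
      Comp G h w w' → phi σ θ f h y w = phi σ θ f h y' w' :=
    fun h1 h2 h3 h4 h5 => hPHI V G Q σ n θ f hE hL h _ _ _ _ hQ h1 h2 h3 h4 h5
  obtain ⟨c, hc1, hc2⟩ := hE.cii h
  have hc : PropC G h c := ⟨hc1, hc2⟩
  have hcw := hCWX V G h
  have ray : ∀ {q v : V}, q ∈ Q → q ∈ Att G h v → h ≠ q ∧ ∃ w, RayQ G Q q w ∧ Comp G h v w := by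
    intro q v hq hqv
    obtain ⟨h1, h2⟩ := (R5 h hQ q hq v).1 hqv
    exact ⟨fun e => h1 e.symm, h2⟩
  have att : ∀ {q v w : V}, h ≠ q → RayQ G Q q w → Comp G h v w → q ∈ Att G h v := by
    intro q v w h1 h2 h3
    exact (R5 h hQ q h2.1 v).2 ⟨fun e => h1 e.symm, w, h2, h3⟩
  -- equality of `phi` at the same vertex of the clique
  have heq : ∀ {q w w' : V}, phi σ θ f h q w = phi σ θ f h q w' ↔ σ w = σ w' := by
    intro q w w'
    unfold phi
    cases σ w <;> cases σ w' <;> cases f q <;> cases decide (θ q < θ h) <;> decide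
  induction r using Nat.strong_induction_on generalizing E with
  | _ r ih =>
    intro hr hcf hu0 hur hin
    by_contra hv
    have hxa : x ∈ Att G h (E 0) := att hx hu hu0.symm
    have hxb : x' ∈ Att G h (E r) := att hx' hu' hur.symm
    by_cases hr1 : r = 1
    · -- one step
      subst hr1
      have hv' : phi σ θ f h x u = phi σ θ f h x' u' := by
        by_contra h1
        exact hv ⟨fun h2 => absurd h2 h1, fun h2 => absurd h2 (by decide)⟩
      have h01 := hcf 0 (by omega)
      have h01' : Conf G h (E 0) (E 1) := h01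
      by_cases hq : ∃ q ∈ Q, q ∈ Att G h (E 0) ∧ q ∈ Att G h (E 1)
      · obtain ⟨q, hq, hq0, hq1⟩ := hq
        obtain ⟨e, w, hw, hw0⟩ := ray hq hq0
        obtain ⟨_, w', hw', hw1⟩ := ray hq hq1
        have h2 : Conf G h w w' := h01'.congr hw0 hw1
        have h3 := (hE.sg q w w' h hw hw' hQ e).2 h2
        have h4 := hphi hx e hu hw (hu0.trans hw0)
        have h5 := hphi hx' e hu' hw' (hur.trans hw1)
        rw [h4, h5] at hv'
        exact h3 (heq.1 hv')
      · obtain ⟨m, hm0, hm1⟩ := vwx_n h01'
        have hmQ : m ∉ Q := fun h2 => hq ⟨m, h2, hm0, hm1⟩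
        obtain ⟨a, e, hb, he⟩ := hFRY V G Q hDF hE.mx h (E 0) m x hQ hm0 hmQ hu.1 hxa
        obtain ⟨b, e', hb', he'⟩ := hFRY V G Q hDF hE.mx h (E 1) m x' hQ hm1 hmQ hu'.1 hxb
        have hab : a ≠ b := by
          intro h2
          have h3 : a ∈ Att G h (E 0) := att hb.1 hb.2.2.1 he
          have h4 : a ∈ Att G h (E 1) := by
            rw [h2]
            exact att hb'.1 hb'.2.2.1 he'
          exact hq ⟨a, hb.2.2.1.1, h3, h4⟩
        have h2 := (hLM3 V G Q σ n θ f hL h a b m m e e' hDF hE.mx hb hb').2 hab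
        have h4 := hphi hx hb.1 hu hb.2.2.1 (hu0.trans he)
        have h5 := hphi hx' hb'.1 hu' hb'.2.2.1 (hur.trans he')
        rw [h4, h5] at hv'
        rw [hv', Bool.xor_self, Bool.xor_self] at h2
        exact absurd h2 (by decide)
    have hr2 : 2 ≤ r := by omega
    -- parity of walks
    have par : ∀ i j, i ≤ j → j ≤ r → (c (E i) = c (E j) ↔ Even (j - i)) := by
      intro i j hij hj
      have h1 := (hcw.2 (j - i) (fun k => E (i + k)) (fun k hk => hcf (i + k) (by omega))).2 c hc
      have e1 : i + (j - i) = j := by omega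
      simpa only [Nat.add_zero, e1] using h1
    have nc : ∀ i j, i + 2 ≤ j → j ≤ r → ¬ Conf G h (E i) (E j) := by
      intro i j hij hj hcij
      have hodd : ¬ Even (j - i) := fun he => hc2 _ _ hcij ((par i j (by omega) hj).2 he)
      obtain ⟨d, hd⟩ := Nat.not_even_iff_odd.1 hodd
      have hjd : j = i + 1 + 2 * d := by omega
      have hev : Even (r - 2 * d) ↔ Even r := by
        rw [Nat.even_sub (by omega)]
        exact ⟨fun h1 => h1.2 (even_two_mul d), fun h1 => ⟨fun _ => even_two_mul d, fun _ => h1⟩⟩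
      refine hv ((ih (r - 2 * d) (by omega) (fun k => if k ≤ i then E k else E (k + 2 * d))
        (by omega) ?_ ?_ ?_ ?_).trans hev)
      · intro k hk
        by_cases h1 : k + 1 ≤ i
        · simp only [if_pos h1, if_pos (show k ≤ i by omega)]
          exact hcf k (by omega)
        · by_cases h2 : k ≤ i
          · simp only [if_neg h1, if_pos h2]
            have e1 : k = i := by omega
            have e2 : k + 1 + 2 * d = j := by omega
            rw [e2, e1]
            exact hcij
          · simp only [if_neg h1, if_neg h2]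
            have e2 : k + 1 + 2 * d = k + 2 * d + 1 := by omega
            rw [e2]
            exact hcf (k + 2 * d) (by omega)
      · simp only [if_pos (Nat.zero_le i)]
        exact hu0
      · simp only [if_neg (show ¬ (r - 2 * d) ≤ i by omega)]
        have e2 : r - 2 * d + 2 * d = r := by omega
        rw [e2]
        exact hur
      · intro k hk1 hk2 q hq
        by_cases h2 : k ≤ i
        · simp only [if_pos h2]
          exact hin k hk1 (by omega) q hq
        · simp only [if_neg h2]
          exact hin (k + 2 * d) (by omega) (by omega) q hq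
    have ncm : ∀ i j, i < j → j ≤ r → ¬ Comp G h (E i) (E j) := by
      intro i j hij hj hcij
      have hev0 : Even (j - i) := (par i j (by omega) hj).1 (hc1 _ _ hcij)
      by_cases hjr : j = r
      · rw [hjr] at hcij hev0
        by_cases hi0 : i = 0
        · rw [hi0] at hcij hev0
          have h1 := hphi hx hx' hu hu' ((hu0.trans hcij).trans hur.symm)
          exact hv ⟨fun _ => by simpa using hev0, fun _ => h1⟩
        · rw [← Att.congr hcij] at hxb
          exact hin i (by omega) (by omega) x' hu'.1 hxb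
      by_cases hi0 : i = 0
      · rw [hi0] at hcij
        rw [Att.congr hcij] at hxa
        exact hin j (by omega) (by omega) x hu.1 hxa
      obtain ⟨d, hd⟩ := hev0
      have hjd : j = i + 2 * d := by omega
      have hev : Even (r - 2 * d) ↔ Even r := by
        rw [Nat.even_sub (by omega)]
        exact ⟨fun h1 => h1.2 (even_two_mul d), fun h1 => ⟨fun _ => even_two_mul d, fun _ => h1⟩⟩
      refine hv ((ih (r - 2 * d) (by omega) (fun k => if k ≤ i then E k else E (k + 2 * d))
        (by omega) ?_ ?_ ?_ ?_).trans hev)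
      · intro k hk
        by_cases h1 : k + 1 ≤ i
        · simp only [if_pos h1, if_pos (show k ≤ i by omega)]
          exact hcf k (by omega)
        · by_cases h2 : k ≤ i
          · simp only [if_neg h1, if_pos h2]
            have e1 : k = i := by omega
            have e2 : k + 1 + 2 * d = j + 1 := by omega
            rw [e2, e1]
            exact (hcf j (by omega)).congr hcij.symm (Comp.refl (hcf j (by omega)).far.2)
          · simp only [if_neg h1, if_neg h2]
            have e2 : k + 1 + 2 * d = k + 2 * d + 1 := by omega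
            rw [e2]
            exact hcf (k + 2 * d) (by omega)
      · simp only [if_pos (Nat.zero_le i)]
        exact hu0
      · simp only [if_neg (show ¬ (r - 2 * d) ≤ i by omega)]
        have e2 : r - 2 * d + 2 * d = r := by omega
        rw [e2]
        exact hur
      · intro k hk1 hk2 q hq
        by_cases h2 : k ≤ i
        · simp only [if_pos h2]
          exact hin k hk1 (by omega) q hq
        · simp only [if_neg h2]
          exact hin (k + 2 * d) (by omega) (by omega) q hq
    -- the common attachments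
    have hex : ∀ i, ∃ m, 1 ≤ i → i ≤ r → m ∈ Att G h (E (i - 1)) ∧ m ∈ Att G h (E i) := by
      intro i
      by_cases h1 : 1 ≤ i ∧ i ≤ r
      · have h2 := hcf (i - 1) (by omega)
        have e1 : i - 1 + 1 = i := by omega
        rw [e1] at h2
        obtain ⟨m, hm⟩ := vwx_n h2
        exact ⟨m, fun _ _ => hm⟩
      · exact ⟨h, fun h2 h3 => absurd ⟨h2, h3⟩ h1⟩
    choose n0 hn0 using hex
    have hnQ : ∀ i, 1 ≤ i → i ≤ r → n0 i ∉ Q := by
      intro i h1 h2 h3
      obtain ⟨h4, h5⟩ := hn0 i h1 h2
      by_cases h6 : i < r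
      · exact hin i h1 h6 _ h3 h5
      · exact hin (i - 1) (by omega) (by omega) _ h3 h4
    have hsg : ∀ i, 1 ≤ i → i ≤ r → σ (n0 1) = σ (n0 i) := by
      intro i
      induction i with
      | zero => intro h1; omega
      | succ i ihi =>
        intro _ h2
        by_cases h1 : i = 0
        · rw [h1]
        · rw [ihi (by omega) (by omega)]
          have e1 : i + 1 - 1 = i := by omega
          have h3 := (hn0 (i + 1) (by omega) h2).1
          rw [e1] at h3
          exact vwx_sg hRAY hE hQ (hn0 i (by omega) (by omega)).2 h3 (hnQ i (by omega) (by omega))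
            (hnQ (i + 1) (by omega) h2) (hin i (by omega) (by omega))
    have hm0 : n0 1 ∈ Att G h (E 0) := (hn0 1 le_rfl (by omega)).1
    have hmr : n0 r ∈ Att G h (E r) := (hn0 r (by omega) le_rfl).2
    obtain ⟨a, e0, hba, he0⟩ := hFRY V G Q hDF hE.mx h (E 0) (n0 1) x hQ hm0
      (hnQ 1 le_rfl (by omega)) hu.1 hxa
    obtain ⟨b, er, hbb, her⟩ := hFRY V G Q hDF hE.mx h (E r) (n0 r) x' hQ hmr
      (hnQ r (by omega) le_rfl) hu'.1 hxb
    have haA : a ∈ Att G h (E 0) := att hba.1 hba.2.2.1 he0
    have hbA : b ∈ Att G h (E r) := att hbb.1 hbb.2.2.1 her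
    have p1 := hphi hx hba.1 hu hba.2.2.1 (hu0.trans he0)
    have p2 := hphi hx' hbb.1 hu' hbb.2.2.1 (hur.trans her)
    rw [p1, p2] at hv
    have hsr : σ (n0 1) = σ (n0 r) := hsg r (by omega) le_rfl
    have hlm := hLM3 V G Q σ n θ f hL h a b (n0 1) (n0 r) e0 er hDF hE.mx hba hbb
    rw [hsr] at hlm
    have hclu : Clu G h (E 0) (E r) := (hcw.2 r E hcf).1
    -- clusters and rays
    have hclu' : ∀ {w w' : V}, Comp G h (E 0) w → Comp G h (E r) w' → Clu G h w w' := by
      intro w w' h1 h2
      have h3 : Clu G h w (E 0) := Relation.ReflTransGen.single (Or.inl h1.symm)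
      have h4 : Clu G h (E r) w' := Relation.ReflTransGen.single (Or.inl h2)
      exact (h3.trans hclu).trans h4
    have hpr := par 0 r (by omega) le_rfl
    rw [Nat.sub_zero] at hpr
    have hab : a ≠ b := by
      intro hab
      have h1 := hlm.1 hab
      have h2 : phi σ θ f h a e0 = phi σ θ f h b er := by
        rw [Bool.xor_self] at h1
        exact vwx_xf _ _ h1
      have hodd : ¬ Even r := fun he => hv ⟨fun _ => he, fun _ => h2⟩
      have h3 := hS a e0 er h hba.2.2.1 (hab ▸ hbb.2.2.1) hQ hba.1 (hclu' he0 her) c hc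
      rw [← hc1 _ _ he0, ← hc1 _ _ her, hpr] at h3
      rw [← hab] at h2
      exact hodd (h3.1 (heq.1 h2))
    have hev : Even r := by
      have h1 := hlm.2 hab
      rw [Bool.xor_self] at h1
      by_contra hodd
      refine hv ⟨fun h2 => ?_, fun h2 => absurd h2 hodd⟩
      rw [h2, Bool.xor_self] at h1
      exact absurd h1 (by decide)
    have hphn : phi σ θ f h a e0 ≠ phi σ θ f h b er := fun h1 => hv ⟨fun _ => hev, fun _ => h1⟩
    have dsj : ∀ i j, i + 2 ≤ j → j ≤ r → ∀ m, m ∈ Att G h (E i) → m ∉ Att G h (E j) := by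
      intro i j hij hj m hmi hmj
      rcases vwx_le (nc i j hij hj) (ncm i j (by omega) hj) hmi hmj with hle | hle
      · -- the first component is below
        have hle0 : ∀ k, k ≤ i → Le G h (E (i - k)) (E j) := by
          intro k
          induction k with
          | zero => intro _; exact hle
          | succ k ihk =>
            intro hk
            have h1 := ihk (by omega)
            have h2 := hcf (i - (k + 1)) (by omega)
            have e1 : i - (k + 1) + 1 = i - k := by omega
            rw [e1] at h2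
            exact hPRP V G h (E (i - k)) (E j) (E (i - (k + 1))) h1 h2.symm
              (nc _ _ (by omega) hj) (ncm _ _ (by omega) hj)
        have h1 := hle0 i le_rfl
        rw [Nat.sub_self] at h1
        have h2 := vwx_sub h1 a haA
        have hjr : j = r := by
          by_contra h3
          exact hin j (by omega) (by omega) a hba.2.2.1.1 h2
        rw [hjr] at h2
        obtain ⟨_, w, hw, hw'⟩ := ray hba.2.2.1.1 h2
        have h3 := hS a e0 w h hba.2.2.1 hw hQ hba.1 (hclu' he0 hw') c hc
        rw [← hc1 _ _ he0, ← hc1 _ _ hw', hpr] at h3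
        have h4 := (heq (q := a)).2 (h3.2 hev)
        have h5 := hphi hba.1 hbb.1 hw hbb.2.2.1 (hw'.symm.trans her)
        exact hphn (h4.trans h5)
      · have hle0 : ∀ k, j + k ≤ r → Le G h (E (j + k)) (E i) := by
          intro k
          induction k with
          | zero => intro _; exact hle
          | succ k ihk =>
            intro hk
            have h1 := ihk (by omega)
            have h2 := hcf (j + k) (by omega)
            exact hPRP V G h (E (j + k)) (E i) (E (j + k + 1)) h1 h2
              (fun h3 => nc _ _ (by omega) hk h3.symm) (fun h3 => ncm _ _ (by omega) hk h3.symm)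
        have h1 := hle0 (r - j) (by omega)
        have e1 : j + (r - j) = r := by omega
        rw [e1] at h1
        have h2 := vwx_sub h1 b hbA
        have hi0 : i = 0 := by
          by_contra h3
          exact hin i (by omega) (by omega) b hbb.2.2.1.1 h2
        rw [hi0] at h2
        obtain ⟨_, w, hw, hw'⟩ := ray hbb.2.2.1.1 h2
        have h3 := hS b w er h hw hbb.2.2.1 hQ hbb.1 (hclu' hw' her) c hc
        rw [← hc1 _ _ hw', ← hc1 _ _ her, hpr] at h3
        have h4 := (heq (q := b)).2 (h3.2 hev)
        have h5 := hphi hba.1 hbb.1 hba.2.2.1 hw (he0.symm.trans hw')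
        exact hphn (h5.trans h4)
    refine hno h a b r E (fun i => if i = 0 then a else if i = r + 1 then b else n0 i)
      ⟨hQ, hba.2.2.1.1, hbb.2.2.1.1, hab, hba.1, hbb.1, hev, hr2, hcf, ncm, dsj, ?_, ?_, ?_, ?_,
        hin⟩
    · simp only [if_pos]
    · simp only [if_neg (Nat.succ_ne_zero r), if_pos]
    · intro i hi
      constructor
      · by_cases h1 : i = 0
        · simp only [h1, if_pos]
          exact haA
        · simp only [if_neg h1, if_neg (show ¬ i = r + 1 by omega)]
          exact (hn0 i (by omega) hi).2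
      · simp only [if_neg (Nat.succ_ne_zero i)]
        by_cases h1 : i = r
        · simp only [h1, if_pos]
          exact hbA
        · simp only [if_neg (show ¬ i + 1 = r + 1 by omega)]
          have h2 := (hn0 (i + 1) (by omega) (by omega)).1
          have e1 : i + 1 - 1 = i := by omega
          rw [e1] at h2
          exact h2
    · intro i h1 h2
      simp only [if_neg (show ¬ i = 0 by omega), if_neg (show ¬ i = r + 1 by omega)]
      exact hnQ i h1 h2

end Pool.Agent.Helper64.FL
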